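import Pool.Agent.helper81.PL.SpecA

set_option autoImplicit false
set_option linter.dupNamespace false
set_option linter.unusedVariables false

namespace Pool.Agent.helper81.PL

open Pool.Agent.helper62 Prog Function

/-- the program of `Tr.car` -/
def CAR_prog (b : ℕ) : Prog ℕ :=
  .ifp b .skip (.push b false)
    (.seq (.push (b + 1) true) (.seq (prs b) (.seq (Prog.clear b) (pour (b + 2) b))))

theorem CAR (h : PRS_stmt) : CAR_stmt := by
  refine ⟨12, fun b => ⟨CAR_prog b, ?_⟩⟩
  intro a S hS hi
  have e1 : S (b + 1) = [] := hi _ (by omega)
  have e2 : S (b + 2) = [] := hi _ (by omega)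
  cases a with
  | nil =>
    have hS' : S b = false :: [] := hS
    have h1 : Runs (if false then (.seq (.push (b + 1) true) (.seq (prs b)
        (.seq (Prog.clear b) (pour (b + 2) b)))) else (.push b false) : Prog ℕ)
        (update S b []) (update (update S b []) b (false :: (update S b []) b)) 1 :=
      Runs.push b false _
    refine (Runs.ifp (pn := .skip) hS' h1).mono' ?_ ?_
    · rw [update_self, update_idem]; rfl
    · show 1 + 1 ≤ 12 * 1
      omega
  | node x y =>
    have hS' : S b = true :: (x.code ++ y.code) := hS
    have r1 := Runs.push (b + 1) true (update S b (x.code ++ y.code))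
    have r2 := h b x y.code (update (update S b (x.code ++ y.code)) (b + 1)
      (true :: (update S b (x.code ++ y.code)) (b + 1)))
      (by rw [update_of_ne (by omega), update_self])
      (by rw [update_self, update_of_ne (by omega), e1])
    have r3 := Runs.clear (k := b) y.code _ (by
      rw [update_of_ne (by omega), update_of_ne (by omega), update_self] :
      (update (update (update (update (update S b (x.code ++ y.code)) (b + 1)
      (true :: (update S b (x.code ++ y.code)) (b + 1))) b y.code) (b + 1) []) (b + 2)
      (x.code.reverse ++ (update (update S b (x.code ++ y.code)) (b + 1)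
      (true :: (update S b (x.code ++ y.code)) (b + 1))) (b + 2))) b = y.code)
    have r4 := Runs.pour (k := b + 2) (k' := b) (by omega) x.code.reverse
      (update (update (update (update (update (update S b (x.code ++ y.code)) (b + 1)
      (true :: (update S b (x.code ++ y.code)) (b + 1))) b y.code) (b + 1) []) (b + 2)
      (x.code.reverse ++ (update (update S b (x.code ++ y.code)) (b + 1)
      (true :: (update S b (x.code ++ y.code)) (b + 1))) (b + 2))) b [])
      (by
        rw [update_of_ne (by omega), update_self, update_of_ne (by omega), update_of_ne (by omega),
          e2, List.append_nil])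
    refine (Runs.ifp (pn := .skip) (pf := .push b false) (b := true) hS'
      (r1.seq (r2.seq (r3.seq r4)))).mono' ?_ ?_
    · funext j
      by_cases hj : j = b
      · subst hj
        simp [cd, Rep.rep, Tr.car]
      · rw [update_of_ne hj, update_of_ne hj]
        by_cases hj2 : j = b + 2
        · subst hj2; simp [e2]
        · rw [update_of_ne hj2, update_of_ne hj, update_of_ne hj2]
          by_cases hj1 : j = b + 1
          · subst hj1; simp [e1]
          · rw [update_of_ne hj1, update_of_ne hj, update_of_ne hj1, update_of_ne hj]
    · have : sz (Tr.node x y) = x.code.length + y.code.length + 1 := by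
        simp [sz, cd, Rep.rep, Tr.code]
      show _ ≤ 12 * sz (Tr.node x y)
      rw [this, List.length_reverse]
      omega

end Pool.Agent.helper81.PL
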