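import Pool.Agent.helper68.PL.SpecB

/-! # Project pl:, row FRS (helper66): facts about frames -/

set_option autoImplicit false

open Complex Metric Set Filter Topology MeasureTheory
open Pool.Agent.helper98.ILF
open WP (it)
open HY (UD T S hd UN RM)
open PM

noncomputable section

namespace PL

theorem FRS_open (φ : ℂ → ℂ) (hd : DifferentiableOn ℂ φ UD) (hi : InjOn φ UD) (u₀ : ℂ) (r m : ℝ) (hr : 0 < r)
    (hsub : closedBall u₀ r ⊆ UD) (hm : ∀ z ∈ sphere u₀ r, m ≤ ‖φ z - φ u₀‖) :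
    ball (φ u₀) (m / 2) ⊆ φ '' closedBall u₀ r := by
  have hu : u₀ ∈ UD := hsub (mem_closedBall_self hr.le)
  have hopen : IsOpen UD := isOpen_ball
  refine DiffContOnCl.ball_subset_image_closedBall ?_ hr hm ?_
  · exact DifferentiableOn.diffContOnCl (hd.mono (by rw [closure_ball u₀ hr.ne']; exact hsub))
  · have h1 : ∀ᶠ z in 𝓝[≠] u₀, φ z ≠ φ u₀ := by
      have h2 : ∀ᶠ z in 𝓝[≠] u₀, z ∈ UD := mem_nhdsWithin_of_mem_nhds (hopen.mem_nhds hu)
      filter_upwards [h2, self_mem_nhdsWithin] with z hz hz' h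
      exact hz' (hi hz hu h)
    exact h1.frequently.filter_mono nhdsWithin_le_nhds

theorem FRS_loc (U : Filter ℕ) (F : ℕ → ℂ → ℂ) (χ : ℂ → ℂ) (hd : ∀ j, DifferentiableOn ℂ (F j) UD)
    (hi : ∀ j, InjOn (F j) UD) (hχd : DifferentiableOn ℂ χ UD) (hχi : InjOn χ UD)
    (hcv : TendstoLocallyUniformlyOn F χ U UD) (u₀ : ℂ) (hu : u₀ ∈ UD) (ε : ℝ) (hε : 0 < ε) :
    ∃ δ > (0 : ℝ), ∀ᶠ j in U, ∀ ζ ∈ ball (χ u₀) δ, ∃ u ∈ UD, ∃ v ∈ UD, F j u = ζ ∧ χ v = ζ ∧ dist v u < ε := by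
  have hopen : IsOpen UD := isOpen_ball
  obtain ⟨r₁, hr₁, hr₁s⟩ := Metric.isOpen_iff.1 hopen u₀ hu
  set r : ℝ := min (r₁ / 2) (ε / 4) with hrdef
  have hr : 0 < r := lt_min (by linarith) (by linarith)
  have hsub : closedBall u₀ r ⊆ UD := by
    refine subset_trans ?_ hr₁s
    exact closedBall_subset_ball (lt_of_le_of_lt (min_le_left _ _) (by linarith))
  have hcomp : IsCompact (sphere u₀ r) := isCompact_sphere u₀ r
  have hne : (sphere u₀ r).Nonempty := NormedSpace.sphere_nonempty.2 hr.le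
  have hcont : ContinuousOn (fun z => ‖χ z - χ u₀‖) (sphere u₀ r) := by
    have h1 : ContinuousOn χ (sphere u₀ r) := hχd.continuousOn.mono (sphere_subset_closedBall.trans hsub)
    exact (h1.sub continuousOn_const).norm
  obtain ⟨z₁, hz₁, hz₁m⟩ := hcomp.exists_isMinOn hne hcont
  set m : ℝ := ‖χ z₁ - χ u₀‖ with hmdef
  have hm : 0 < m := by
    rw [hmdef, norm_pos_iff, sub_ne_zero]
    intro h
    have h2 := hχi (hsub (sphere_subset_closedBall hz₁)) hu h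
    rw [h2, mem_sphere, dist_self] at hz₁
    linarith
  have hmin : ∀ z ∈ sphere u₀ r, m ≤ ‖χ z - χ u₀‖ := fun z hz => hz₁m hz
  have hunif : TendstoUniformlyOn F χ U (closedBall u₀ r) :=
    (tendstoLocallyUniformlyOn_iff_forall_isCompact hopen).1 hcv _ hsub (isCompact_closedBall u₀ r)
  have hev := Metric.tendstoUniformlyOn_iff.1 hunif (m / 8) (by linarith)
  refine ⟨m / 8, by linarith, ?_⟩
  filter_upwards [hev] with j hj ζ hζ
  have h1 : ball (F j u₀) ((m / 2) / 2) ⊆ F j '' closedBall u₀ r := by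
    refine FRS_open (F j) (hd j) (hi j) u₀ r (m / 2) hr hsub fun z hz => ?_
    have h2 := hj z (sphere_subset_closedBall hz)
    have h3 := hj u₀ (mem_closedBall_self hr.le)
    rw [dist_eq_norm] at h2 h3
    have h4 := hmin z hz
    have h5 : χ z - χ u₀ = (χ z - F j z) - (χ u₀ - F j u₀) + (F j z - F j u₀) := by ring
    have h6 : ‖χ z - χ u₀‖ ≤ ‖χ z - F j z‖ + ‖χ u₀ - F j u₀‖ + ‖F j z - F j u₀‖ := by
      rw [h5]
      refine (norm_add_le _ _).trans ?_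
      gcongr
      exact norm_sub_le _ _
    linarith
  have h2 : ball (χ u₀) (m / 2) ⊆ χ '' closedBall u₀ r := FRS_open χ hχd hχi u₀ r m hr hsub hmin
  have h3 : ζ ∈ ball (F j u₀) ((m / 2) / 2) := by
    rw [mem_ball] at hζ ⊢
    have h4 := hj u₀ (mem_closedBall_self hr.le)
    calc dist ζ (F j u₀) ≤ dist ζ (χ u₀) + dist (χ u₀) (F j u₀) := dist_triangle _ _ _
      _ < m / 8 + m / 8 := add_lt_add hζ h4
      _ = (m / 2) / 2 := by ring
  have h4 : ζ ∈ ball (χ u₀) (m / 2) := ball_subset_ball (by linarith) hζ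
  obtain ⟨u, hu1, hu2⟩ := h1 h3
  obtain ⟨v, hv1, hv2⟩ := h2 h4
  refine ⟨u, hsub hu1, v, hsub hv1, hu2, hv2, ?_⟩
  calc dist v u ≤ dist v u₀ + dist u₀ u := dist_triangle _ _ _
    _ ≤ r + r := add_le_add (mem_closedBall.1 hv1) (by rw [dist_comm]; exact mem_closedBall.1 hu1)
    _ ≤ ε / 4 + ε / 4 := add_le_add (min_le_right _ _) (min_le_right _ _)
    _ < ε := by linarith

theorem FRS (hTDF : TDF_stmt) (hTPM : TPM_stmt) (hVCF : VCF_stmt) (hVSM : VSM_stmt) : FRS_stmt := by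
  intro f R δ e₀ d₀ k₀ hST x hx U H χ hF
  have hER : ER f R := ⟨hST.R1, hST.esc⟩
  have hRM : RM (χ '' UD) 0 χ := ⟨hF.dif, hF.inj, rfl, hF.val⟩
  obtain ⟨hDD, hcr⟩ := hTPM _ _ _ hRM
  have h0 : (0 : ℂ) ∈ UD := mem_ball_self one_pos
  have hcr0 : cr (χ '' UD) 0 = 1 := by
    have h := (hcr 0 h0).1
    rw [hF.val, hF.one] at h
    rw [h]
    simp
  have hOpen : IsOpen (χ '' UD) := (hTDF _ hDD).1
  have hW : ∀ j, DD (VC f R (H j) x) ∧ x ∈ VC f R (H j) x := by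
    intro j
    have h := hVCF f R hST.deg hER (H j) x (hST.Jv x hx (H j))
    exact ⟨h.1, h.2.1⟩
  have hT := fun j => (hTDF _ (hW j).1).2.2 x (hW j).2
  have hs : ∀ j, 0 < cr (VC f R (H j) x) x := fun j => (hT j).2.1
  have hsC : ∀ j, ((cr (VC f R (H j) x) x : ℝ) : ℂ) ≠ 0 := fun j => by
    exact_mod_cast (hs j).ne'
  set F : ℕ → ℂ → ℂ := fun j u => (rm (VC f R (H j) x) x u - x) / (cr (VC f R (H j) x) x : ℂ) with hFdef
  have hFd : ∀ j, DifferentiableOn ℂ (F j) UD := fun j =>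
    ((hT j).1.dif.sub_const x).div_const _
  have hFi : ∀ j, InjOn (F j) UD := by
    intro j u hu v hv h
    apply (hT j).1.inj hu hv
    have h1 : (rm (VC f R (H j) x) x u - x) / (cr (VC f R (H j) x) x : ℂ) =
        (rm (VC f R (H j) x) x v - x) / (cr (VC f R (H j) x) x : ℂ) := h
    rw [div_left_inj' (hsC j)] at h1
    exact sub_left_inj.1 h1
  -- a point with coordinate in the disc
  have hkey : ∀ j, ∀ u ∈ UD, ∀ ζ : ℂ, F j u = ζ → PZ f R x (H j) ζ = rm (VC f R (H j) x) x u := by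
    intro j u hu ζ h
    have h1 : (rm (VC f R (H j) x) x u - x) / (cr (VC f R (H j) x) x : ℂ) = ζ := h
    rw [div_eq_iff (hsC j)] at h1
    show x + (cr (VC f R (H j) x) x : ℂ) * ζ = rm (VC f R (H j) x) x u
    rw [mul_comm, ← h1]
    ring
  have hloc : ∀ u₀ ∈ UD, ∀ ε > (0 : ℝ), ∃ δ > (0 : ℝ), ∀ᶠ j in (U : Filter ℕ), ∀ ζ ∈ ball (χ u₀) δ,
      ∃ u ∈ UD, ∃ v ∈ UD, F j u = ζ ∧ χ v = ζ ∧ dist v u < ε :=
    fun u₀ hu₀ ε hε => FRS_loc (U : Filter ℕ) F χ hFd hFi hF.dif hF.inj hF.cv u₀ hu₀ ε hε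
  refine ⟨hRM, hDD, hcr0, hOpen, ⟨0, h0, hF.val⟩, ?_, ?_, ?_⟩
  · -- the conformal radii tend to zero
    rw [Metric.tendsto_nhds]
    intro ε hε
    obtain ⟨k₁, hk₁⟩ := hVSM f R δ e₀ d₀ k₀ hST (ε / 2) (by linarith)
    filter_upwards [hF.hH.eventually (eventually_ge_atTop k₁)] with j hj
    rw [dist_zero_right, Real.norm_eq_abs, abs_of_pos (hs j)]
    exact lt_of_le_of_lt (hk₁ (H j) hj x hx) (by linarith)
  · -- compact sets
    intro K hK hKc
    refine hKc.induction_on (p := fun K' => ∀ᶠ j in (U : Filter ℕ), ∀ ζ ∈ K', PZ f R x (H j) ζ ∈ VC f R (H j) x)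
      ?_ ?_ ?_ ?_
    · exact Eventually.of_forall fun j ζ hζ => absurd hζ (notMem_empty ζ)
    · intro s t hst ht
      filter_upwards [ht] with j hj ζ hζ using hj ζ (hst hζ)
    · intro s t hs' ht
      filter_upwards [hs', ht] with j h1 h2 ζ hζ
      rcases hζ with h | h
      · exact h1 ζ h
      · exact h2 ζ h
    · intro ζ₀ hζ₀
      obtain ⟨u₀, hu₀, rfl⟩ := hK hζ₀
      obtain ⟨δ', hδ', hev⟩ := hloc u₀ hu₀ 1 one_pos
      refine ⟨ball (χ u₀) δ', mem_nhdsWithin_of_mem_nhds (ball_mem_nhds _ hδ'), ?_⟩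
      filter_upwards [hev] with j hj ζ hζ
      obtain ⟨u, hu, v, hv, h1, h2, h3⟩ := hj ζ hζ
      rw [hkey j u hu ζ h1]
      exact ((hT j).2.2.2.2.2.2 u hu).1
  · rw [Metric.tendstoLocallyUniformlyOn_iff]
    intro ε hε ζ₀ hζ₀
    obtain ⟨u₀, hu₀, rfl⟩ := hζ₀
    obtain ⟨δ', hδ', hev⟩ := hloc u₀ hu₀ ε hε
    refine ⟨ball (χ u₀) δ', mem_nhdsWithin_of_mem_nhds (ball_mem_nhds _ hδ'), ?_⟩
    filter_upwards [hev] with j hj ζ hζ
    obtain ⟨u, hu, v, hv, h1, h2, h3⟩ := hj ζ hζ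
    have h4 : Function.invFunOn χ UD ζ = v := by
      rw [← h2]
      exact hF.inj.leftInvOn_invFunOn hv
    rw [h4, hkey j u hu ζ h1, ((hT j).2.2.2.2.2.2 u hu).2.1]
    exact h3

end PL
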